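import Pool.Agent.W744.BU.Stm

set_option autoImplicit false

open Set Filter Topology

namespace Pool.Agent.W92.BU.SPA

open Pool.Agent.W744.BU

/-- the adjoin of a set closed under products, star and containing one is its span -/
theorem adjoin_span {B : Type*} [Ring B] [StarRing B] [Algebra ℂ B] [StarModule ℂ B]
    (X : Set B) (h1 : (1 : B) ∈ X) (hm : ∀ x ∈ X, ∀ y ∈ X, x * y ∈ X)
    (hs : ∀ x ∈ X, star x ∈ X) :
    ((StarAlgebra.adjoin ℂ X : StarSubalgebra ℂ B) : Set B) = (Submodule.span ℂ X : Set B) := by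
  have h : Subalgebra.toSubmodule (StarAlgebra.adjoin ℂ X).toSubalgebra =
      Submodule.span ℂ (Submonoid.closure (X ∪ star X) : Set B) :=
    StarAlgebra.adjoin_eq_span X
  have hX : X ∪ star X = X := by
    apply Set.union_eq_self_of_subset_right
    intro x hx
    have := hs _ hx
    simpa using this
  have hc : (Submonoid.closure X : Set B) = X := by
    apply Set.Subset.antisymm
    · let M : Submonoid B := { carrier := X, one_mem' := h1, mul_mem' := fun {y z} hy hz => hm y hy z hz }
      have : Submonoid.closure X ≤ M := Submonoid.closure_le.2 (fun y hy => hy)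
      exact fun x hx => this hx
    · exact Submonoid.subset_closure
  rw [hX, hc] at h
  ext x
  have := congrArg (fun S : Submodule ℂ B => x ∈ S) h
  simp only [Subalgebra.mem_toSubmodule, eq_iff_iff] at this
  exact this

theorem main (hE : S_ENT) (hT : S_TENS) (hL : S_LAM) : S_SPA := by
  intro G J _ A
  obtain ⟨hext, -, -, -, -⟩ := hE
  obtain ⟨t1, tmul, tstar, tone, -, tadd, tsmul, -⟩ := hT
  obtain ⟨-, l1, lmul, lstar, -, -⟩ := hL G
  set X : Set (Op (J × G)) := {x | ∃ a ∈ A, ∃ h : G, x = tens a (lam h)} with hX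
  have hXs : ((StarAlgebra.adjoin ℂ X : StarSubalgebra ℂ (Op (J × G))) : Set (Op (J × G))) =
      (Submodule.span ℂ X : Set (Op (J × G))) := by
    apply adjoin_span
    · exact ⟨1, A.one_mem, 1, by rw [l1, tone]⟩
    · rintro _ ⟨a, ha, h, rfl⟩ _ ⟨a', ha', h', rfl⟩
      exact ⟨a * a', A.mul_mem ha ha', h * h', by rw [lmul, tmul]⟩
    · rintro _ ⟨a, ha, h, rfl⟩
      exact ⟨star a, star_mem ha, h⁻¹, by rw [← lstar, tstar]⟩
  have hLs : ((StarAlgebra.adjoin ℂ (range (lam : G → Op G)) : StarSubalgebra ℂ (Op G)) :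
      Set (Op G)) = (Submodule.span ℂ (range (lam : G → Op G)) : Set (Op G)) := by
    apply adjoin_span
    · exact ⟨1, l1⟩
    · rintro _ ⟨h, rfl⟩ _ ⟨h', rfl⟩
      exact ⟨h * h', lmul h h'⟩
    · rintro _ ⟨h, rfl⟩
      exact ⟨h⁻¹, (lstar h).symm⟩
  -- the linear map `b ↦ a ⊗ b`
  have key : ∀ a ∈ A, ∀ b ∈ CA (lam : G → Op G), tens a b ∈
      (StarAlgebra.adjoin ℂ X : StarSubalgebra ℂ (Op (J × G))).topologicalClosure := by
    intro a ha b hb
    let f : Op G →ₗ[ℂ] Op (J × G) :=
      { toFun := fun b => tens a b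
        map_add' := fun b b' => tadd J G a b b'
        map_smul' := fun z b => (tsmul J G z a b).2 }
    have hf : Continuous f := by
      exact (f.mkContinuous ‖a‖ (fun b => (t1 J G a b).2)).continuous
    have hb' : b ∈ closure ((StarAlgebra.adjoin ℂ (range (lam : G → Op G)) :
        StarSubalgebra ℂ (Op G)) : Set (Op G)) := by
      have : b ∈ ((StarAlgebra.adjoin ℂ (range (lam : G → Op G))).topologicalClosure :
        Set (Op G)) := hb
      rwa [StarSubalgebra.topologicalClosure_coe] at this
    have hmap : MapsTo f ((StarAlgebra.adjoin ℂ (range (lam : G → Op G)) :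
        StarSubalgebra ℂ (Op G)) : Set (Op G))
        ((StarAlgebra.adjoin ℂ X : StarSubalgebra ℂ (Op (J × G))) : Set (Op (J × G))) := by
      rw [hLs, hXs]
      intro b hb
      have hle : Submodule.span ℂ (range (lam : G → Op G)) ≤
          (Submodule.span ℂ X).comap f := by
        rw [Submodule.span_le]
        rintro _ ⟨h, rfl⟩
        exact Submodule.subset_span ⟨a, ha, h, rfl⟩
      exact hle hb
    have := map_mem_closure hf hb' hmap
    rw [← SetLike.mem_coe, StarSubalgebra.topologicalClosure_coe]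
    exact this
  have hle : spat A (CA (lam : G → Op G)) ≤
      (StarAlgebra.adjoin ℂ X : StarSubalgebra ℂ (Op (J × G))).topologicalClosure := by
    unfold spat
    apply StarSubalgebra.topologicalClosure_minimal
    · apply StarAlgebra.adjoin_le
      rintro c ⟨a, ha, b, hb, hc⟩
      have : c = tens a b := by
        apply hext
        rintro ⟨i, k⟩ ⟨i', k'⟩
        rw [hc i k i' k', (t1 J G a b).1 i k i' k']
      rw [this]
      exact key a ha b hb
    · exact StarSubalgebra.isClosed_topologicalClosure _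
  intro x hx
  have hx' := hle hx
  rw [← SetLike.mem_coe, StarSubalgebra.topologicalClosure_coe, hXs] at hx'
  exact hx'

end Pool.Agent.W92.BU.SPA
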